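import Pool.Agent.RGR.PTR

/-!
# MP_42f34a_an: circle domains with rings at the point components

`Lim Ω` is the set of accumulation points of the boundary circles, `RingPoint Ω x` the ring
condition at `x`; both are defined in `Pool/Agent/RGR/PTR.lean`. The theorem on rings is proved in
`Pool/Agent/RGR/`, with helper41's library `Pool/Agent/Lib_helper41/`.
-/

set_option autoImplicit false

namespace Pool.Agent.Results.MP_42f34a_an.PointRings

open Pool.Agent.LibHelper41 Pool.Agent.LibHelper41.Remov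
open Pool.Agent.RGR.PTR

/-- **Theorem.** Let `Ω` be a circle domain containing `∞`, all of whose boundary Cantor sets are
conformally removable, and let `Z n` be closed conformally removable sets. Suppose that every
boundary point `x` outside of the sets `Z n` which is a component of the complement is a ring point,
or has a neighbourhood `V` such that the Cantor sets of point components in `Lim Ω ∩ V` are
removable for continuous `W^{1,2}` functions. Then `∂Ω` is conformally removable. -/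
theorem result :
    ∀ Ω : Set ℂ, IsOpen Ω → IsConnected Ω → Bornology.IsBounded Ωᶜ →
      (∀ x ∈ Ωᶜ, connectedComponentIn Ωᶜ x = {x} ∨
        ∃ c : ℂ, ∃ r : ℝ, 0 < r ∧ connectedComponentIn Ωᶜ x = Metric.closedBall c r) →
      (∀ K : Set ℂ, K ⊆ frontier Ω → K.Nonempty → IsCompact K → Perfect K →
        IsTotallyDisconnected K →
        ∀ f : ℂ ≃ₜ ℂ, DifferentiableOn ℂ (⇑f) Kᶜ → Differentiable ℂ (⇑f)) →
      ∀ Z : ℕ → Set ℂ, (∀ n, IsClosed (Z n) ∧
        ∀ f : ℂ ≃ₜ ℂ, DifferentiableOn ℂ (⇑f) (Z n)ᶜ → Differentiable ℂ (⇑f)) →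
      (∀ x ∈ frontier Ω, connectedComponentIn Ωᶜ x = {x} → (∀ n, x ∉ Z n) →
        RingPoint Ω x ∨ ∃ V : Set ℂ, IsOpen V ∧ x ∈ V ∧
          ∀ K : Set ℂ, K ⊆ frontier Ω ∩ Lim Ω ∩ V → K.Nonempty → IsCompact K → Perfect K →
            IsTotallyDisconnected K → (∀ y ∈ K, connectedComponentIn Ωᶜ y = {y}) →
            SobolevRemovable K) →
      ∀ f : ℂ ≃ₜ ℂ, DifferentiableOn ℂ (⇑f) (frontier Ω)ᶜ → Differentiable ℂ (⇑f) := by
  intro Ω hΩ _ hbd hc hcan Z hZ hx f hf
  refine main ⟨hΩ, hbd, hc, hcan⟩ Z (fun n => (hZ n).1) (fun n => (hZ n).2) (fun x h1 h2 h3 => ?_)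
    f hf
  rcases hx x h1 h2 h3 with h | ⟨V, hV, hxV, h⟩
  · exact Or.inl h
  · exact Or.inr ⟨V, hV, hxV, fun K k1 k2 k3 k4 k5 k6 => rem_of_sobolev (h K k1 k2 k3 k4 k5 k6)⟩

end Pool.Agent.Results.MP_42f34a_an.PointRings
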