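import Pool.Agent.Lib_helper41.Remov.Sobolev

set_option autoImplicit false

namespace Pool.Agent.Results.MP_42f34a_an.SobolevCantor

open MeasureTheory Set Complex Topology Filter
open Pool.Agent.LibHelper41 Pool.Agent.LibHelper41.Remov

/-- **Theorem.** Let `Ω` be a circle domain containing `∞`.  If every Cantor set contained in `∂Ω`
and made of point components is removable for continuous `W^{1,2}` functions, then so is the whole
boundary `∂Ω`, and `∂Ω` is conformally removable. -/
theorem result :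
    ∀ Ω : Set ℂ, IsOpen Ω → IsConnected Ω → Bornology.IsBounded Ωᶜ →
      (∀ x ∈ Ωᶜ, connectedComponentIn Ωᶜ x = {x} ∨
        ∃ c : ℂ, ∃ r : ℝ, 0 < r ∧ connectedComponentIn Ωᶜ x = Metric.closedBall c r) →
      (∀ K : Set ℂ, K ⊆ frontier Ω → K.Nonempty → IsCompact K → Perfect K →
        IsTotallyDisconnected K → (∀ x ∈ K, connectedComponentIn Ωᶜ x = {x}) →
        SobolevRemovable K) →
      SobolevRemovable (frontier Ω) ∧
      ∀ f : ℂ ≃ₜ ℂ, DifferentiableOn ℂ (⇑f) (frontier Ω)ᶜ → Differentiable ℂ (⇑f) := by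
  intro Ω hΩ _ hb hc hK
  obtain ⟨hE, h0, hR⟩ := circle_rem hΩ hb hc
    (fun K h1 h2 h3 h4 h5 h6 => rem_of_sobolev (hK K h1 h2 h3 h4 h5 h6))
    (fun K hK hR => volume_zero_of_rem hK hR)
  exact ⟨sobolev_of_rem hE h0 hR, fun f hf => conf_of_rem hE h0 hR f hf⟩

end Pool.Agent.Results.MP_42f34a_an.SobolevCantor
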