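import Pool.Agent.Lib_helper41.Remov.Sobolev
import Pool.Agent.Lib_helper41.Weld.Thick

set_option autoImplicit false

namespace Pool.Agent.Results.MP_42f34a_an.ThickPart

open MeasureTheory Set Complex Topology Filter
open Pool.Agent.LibHelper41 Pool.Agent.LibHelper41.Remov Pool.Agent.LibHelper41.Weld

/-- **Theorem.** Let `Ω` be a circle domain containing `∞` all of whose boundary Cantor sets are
conformally removable.  Suppose that every nonempty thick closed subset `N` of `∂Ω` has a nonempty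
relatively open part whose Cantor subsets made of point components are removable for continuous
`W^{1,2}` functions.  Then `∂Ω` is conformally removable. -/
theorem result :
    ∀ Ω : Set ℂ, IsOpen Ω → IsConnected Ω → Bornology.IsBounded Ωᶜ →
      (∀ x ∈ Ωᶜ, connectedComponentIn Ωᶜ x = {x} ∨
        ∃ c : ℂ, ∃ r : ℝ, 0 < r ∧ connectedComponentIn Ωᶜ x = Metric.closedBall c r) →
      (∀ K : Set ℂ, K ⊆ frontier Ω → K.Nonempty → IsCompact K → Perfect K →
        IsTotallyDisconnected K →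
        ∀ f : ℂ ≃ₜ ℂ, DifferentiableOn ℂ (⇑f) Kᶜ → Differentiable ℂ (⇑f)) →
      (∀ N : Set ℂ, N ⊆ frontier Ω → IsClosed N → N.Nonempty → Thick Ω N →
        ∃ U : Set ℂ, IsOpen U ∧ (N ∩ U).Nonempty ∧ ∀ K : Set ℂ, K ⊆ N ∩ U → K.Nonempty →
          IsCompact K → Perfect K → IsTotallyDisconnected K →
          (∀ x ∈ K, connectedComponentIn Ωᶜ x = {x}) → SobolevRemovable K) →
      ∀ f : ℂ ≃ₜ ℂ, DifferentiableOn ℂ (⇑f) (frontier Ω)ᶜ → Differentiable ℂ (⇑f) := by
  intro Ω hΩ _ _ hc hcan hthick f hf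
  refine main_thick hΩ hc hcan (fun N h1 h2 h3 h4 => ?_) f hf
  obtain ⟨U, hU, hNU, hK⟩ := hthick N h1 h2 h3 h4
  exact ⟨U, hU, hNU, fun K k1 k2 k3 k4 k5 k6 => rem_of_sobolev (hK K k1 k2 k3 k4 k5 k6)⟩

end Pool.Agent.Results.MP_42f34a_an.ThickPart
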